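import Pool.Agent.H78.OX.Targets

/-!
# Estimates for the error terms (board ox_modules, module NMX)
-/

set_option autoImplicit false

namespace Pool.Agent.H51.OX

open Finset Filter Pool.Agent.H6.NB Pool.Agent.H70.OQ Pool.Agent.H70.EH Pool.Agent.H78.XQ
  Pool.Agent.H78.OX

theorem rn_small (l : ℕ) (hl : 100 ≤ l) :
    120 * (2048 * (10 * l + 103) ^ 2 * (l + 1)) ≤ 2 ^ l := by
  induction l, hl using Nat.le_induction with
  | base => norm_num
  | succ l hl ih =>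
    have h : 120 * (2048 * (10 * (l + 1) + 103) ^ 2 * (l + 1 + 1)) ≤
        2 * (120 * (2048 * (10 * l + 103) ^ 2 * (l + 1))) := by
      have h1 : (10 * (l + 1) + 103) ^ 2 * (l + 2) ≤ 2 * ((10 * l + 103) ^ 2 * (l + 1)) := by
        nlinarith [Nat.zero_le (l ^ 3), Nat.zero_le (l ^ 2),
          mul_le_mul hl hl (by norm_num) (by omega)]
      nlinarith
    calc _ ≤ _ := h
      _ ≤ 2 * 2 ^ l := by omega
      _ = 2 ^ (l + 1) := by rw [pow_succ]; ring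

/-- The estimates in variables. -/
theorem nmx_core (n l q R r w : ℕ) (A U d : ℝ) (h10 : 10 * n ≤ l)
    (hq : q = 10 * l + 100) (hR1 : 1 ≤ R) (hRl : 120 * R ≤ 2 ^ l) (hr : 10 * l + 8 ≤ r)
    (hw : 1 ≤ w) (hA1 : 1 ≤ A) (hU0 : 0 ≤ U) (hdv : d = R / 2 ^ (4 * l))
    (hyp : A * A * ((w : ℝ) ^ 2 + (2 * 2 ^ q) ^ 2 * U) + 1 ≤ 2 ^ n) :
    ((2 : ℝ) ^ (2 * l)) * ((2 ^ n - 1 + 1) / √(2 ^ q)) + 2 * ((12 * (w : ℝ) * d +
      4 * w ^ 2 / 2 ^ r) * A + (U + 4 * Real.exp (-(2 ^ r * d ^ 2 / 4)))) ≤ (1 / 4) ^ l := by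
  have hnl : n ≤ l := by omega
  obtain ⟨y, hy⟩ : ∃ y : ℝ, y = 2 ^ l := ⟨_, rfl⟩
  have hy1 : 1 ≤ y := by rw [hy]; exact one_le_pow₀ (by norm_num)
  have hy0 : 0 < y := by linarith
  have hny : (2 : ℝ) ^ n ≤ y := by rw [hy]; exact pow_le_pow_right₀ (by norm_num) hnl
  have hRy : 120 * (R : ℝ) ≤ y := by
    rw [hy]
    exact_mod_cast hRl
  have hR1' : (1 : ℝ) ≤ R := by exact_mod_cast hR1
  have hw1 : (1 : ℝ) ≤ w := by exact_mod_cast hw
  obtain ⟨Q, hQ⟩ : ∃ Q : ℝ, Q = 2 ^ q := ⟨_, rfl⟩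
  obtain ⟨Z, hZ⟩ : ∃ Z : ℝ, Z = 2 ^ r := ⟨_, rfl⟩
  have hQy : Q = (y ^ 5 * 2 ^ 50) ^ 2 := by
    rw [hQ, hq, hy, ← pow_mul, mul_pow, ← pow_mul, ← pow_mul, ← pow_add]
    congr 1
    ring
  have hQ1 : 1 ≤ Q := by rw [hQ]; exact one_le_pow₀ (by norm_num)
  have hZ1 : 160 * y ^ 10 ≤ Z := by
    rw [hZ, hy, ← pow_mul]
    calc 160 * (2 : ℝ) ^ (l * 10) ≤ 2 ^ 8 * 2 ^ (l * 10) := by
          refine mul_le_mul_of_nonneg_right (by norm_num) (by positivity)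
      _ = 2 ^ (8 + l * 10) := by rw [pow_add]
      _ ≤ 2 ^ r := pow_le_pow_right₀ (by norm_num) (by omega)
  have hZ0 : 0 < Z := lt_of_lt_of_le (by positivity) hZ1
  have hZ3 : 40 * y ^ 3 ≤ Z := by
    refine le_trans ?_ hZ1
    have : y ^ 3 ≤ y ^ 10 := pow_le_pow_right₀ hy1 (by norm_num)
    nlinarith [pow_pos hy0 3]
  rw [← hQ] at hyp ⊢
  rw [← hZ]
  have hy4 : (2 : ℝ) ^ (4 * l) = y ^ 4 := by rw [hy, ← pow_mul]; congr 1; ring
  have hy2 : (2 : ℝ) ^ (2 * l) = y ^ 2 := by rw [hy, ← pow_mul]; congr 1; ring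
  rw [hy4] at hdv
  rw [hy2]
  generalize hN : (2 : ℝ) ^ n = N at hyp hny ⊢
  have hAA1 : 1 ≤ A * A := by nlinarith
  have hW2 : 0 ≤ (w : ℝ) ^ 2 := by positivity
  have hQU : 0 ≤ (2 * Q) ^ 2 * U := by positivity
  -- consequences
  have c1 : (w : ℝ) ^ 2 * A ≤ N := by
    have h1 : (w : ℝ) ^ 2 * A ≤ A * A * (w : ℝ) ^ 2 := by
      have : A * 1 ≤ A * A := mul_le_mul_of_nonneg_left hA1 (by linarith)
      nlinarith
    have h2 : 0 ≤ A * A * ((2 * Q) ^ 2 * U) := by positivity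
    nlinarith
  have c2 : (w : ℝ) * A ≤ N := by
    refine le_trans ?_ c1
    have : (w : ℝ) ≤ (w : ℝ) ^ 2 := by nlinarith
    exact mul_le_mul_of_nonneg_right this (by linarith)
  have c3 : (2 * Q) ^ 2 * U ≤ N := by
    have h1 : 1 * ((2 * Q) ^ 2 * U) ≤ A * A * ((2 * Q) ^ 2 * U) :=
      mul_le_mul_of_nonneg_right hAA1 hQU
    have h2 : 0 ≤ A * A * (w : ℝ) ^ 2 := by positivity
    nlinarith
  have hq4 : 10 * y ^ 3 ≤ (2 * Q) ^ 2 := by
    have h1 : y ^ 3 ≤ y ^ 10 := pow_le_pow_right₀ hy1 (by norm_num)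
    have h2 : 10 * y ^ 10 ≤ Q := by
      rw [hQy]
      have : (y ^ 5 * 2 ^ 50) ^ 2 = 2 ^ 100 * y ^ 10 := by ring
      rw [this]
      exact mul_le_mul_of_nonneg_right (by norm_num) (by positivity)
    nlinarith
  -- the five terms
  have t1 : y ^ 2 * ((N - 1 + 1) / √Q) ≤ 1 / (5 * y ^ 2) := by
    have e1 : √Q = y ^ 5 * 2 ^ 50 := by
      rw [hQy, Real.sqrt_sq (by positivity)]
    rw [e1, sub_add_cancel]
    calc y ^ 2 * (N / (y ^ 5 * 2 ^ 50)) ≤ y ^ 2 * (y / (y ^ 5 * 2 ^ 50)) := by gcongr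
      _ = 1 / (y ^ 2 * 2 ^ 50) := by field_simp
      _ ≤ 1 / (5 * y ^ 2) := by
        refine one_div_le_one_div_of_le (by positivity) ?_
        nlinarith [pow_pos hy0 2]
  have t2 : 2 * (12 * w * d * A) ≤ 1 / (5 * y ^ 2) := by
    rw [hdv]
    calc 2 * (12 * w * (R / y ^ 4) * A) = 24 * (w * A) * R / y ^ 4 := by ring
      _ ≤ 24 * y * (y / 120) / y ^ 4 := by
        have h1 : (w : ℝ) * A ≤ y := c2.trans hny
        have h2 : (R : ℝ) ≤ y / 120 := by linarith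
        gcongr
      _ = 1 / (5 * y ^ 2) := by
        field_simp
        norm_num
  have t3 : 2 * (4 * w ^ 2 / Z * A) ≤ 1 / (5 * y ^ 2) := by
    calc 2 * (4 * (w : ℝ) ^ 2 / Z * A) = 8 * (w ^ 2 * A) / Z := by ring
      _ ≤ 8 * y / (40 * y ^ 3) := by
        have h1 : (w : ℝ) ^ 2 * A ≤ y := c1.trans hny
        gcongr
      _ = 1 / (5 * y ^ 2) := by
        field_simp
        norm_num
  have t4 : 2 * U ≤ 1 / (5 * y ^ 2) := by
    have h1 : U ≤ y / (10 * y ^ 3) := by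
      rw [le_div_iff₀ (by positivity), mul_comm]
      exact le_trans (mul_le_mul_of_nonneg_right hq4 hU0) (c3.trans hny)
    calc 2 * U ≤ 2 * (y / (10 * y ^ 3)) := by linarith
      _ = 1 / (5 * y ^ 2) := by
        field_simp
        norm_num
  have t5 : 2 * (4 * Real.exp (-(Z * d ^ 2 / 4))) ≤ 1 / (5 * y ^ 2) := by
    obtain ⟨z, hz⟩ : ∃ z : ℝ, z = Z * d ^ 2 / 4 := ⟨_, rfl⟩
    rw [← hz]
    have hz1 : 40 * y ^ 2 ≤ z := by
      rw [hz, hdv, div_pow]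
      have h1 : (1 : ℝ) ≤ (R : ℝ) ^ 2 := one_le_pow₀ hR1'
      rw [le_div_iff₀ (by norm_num), ← mul_div_assoc, le_div_iff₀ (by positivity)]
      calc 40 * y ^ 2 * 4 * (y ^ 4) ^ 2 = 160 * y ^ 10 := by ring
        _ ≤ Z := hZ1
        _ = Z * 1 := (mul_one _).symm
        _ ≤ Z * (R : ℝ) ^ 2 := mul_le_mul_of_nonneg_left h1 hZ0.le
    have hz0 : 0 < z := lt_of_lt_of_le (by positivity) hz1
    have hexp : Real.exp (-z) ≤ 1 / z := by
      rw [Real.exp_neg, inv_eq_one_div]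
      exact one_div_le_one_div_of_le hz0 (by linarith [Real.add_one_le_exp z])
    calc 2 * (4 * Real.exp (-z)) ≤ 2 * (4 * (1 / (40 * y ^ 2))) := by
          have h2 : 1 / z ≤ 1 / (40 * y ^ 2) := one_div_le_one_div_of_le (by positivity) hz1
          linarith
      _ = 1 / (5 * y ^ 2) := by
        field_simp
        norm_num
  have hfin : (1 / 4 : ℝ) ^ l = 5 * (1 / (5 * y ^ 2)) := by
    have e : (4 : ℝ) ^ l = y ^ 2 := by
      rw [hy, ← pow_mul, mul_comm, pow_mul]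
      norm_num
    rw [one_div, inv_pow, e]
    field_simp
  rw [hfin]
  have : 2 * ((12 * (w : ℝ) * d + 4 * w ^ 2 / Z) * A + (U + 4 * Real.exp (-(Z * d ^ 2 / 4)))) =
      2 * (12 * w * d * A) + 2 * (4 * w ^ 2 / Z * A) + 2 * U +
        2 * (4 * Real.exp (-(Z * d ^ 2 / 4))) := by ring
  rw [this]
  linarith

theorem nmx : T_NMX := by
  intro n s S D w hn hs hw hyp
  have h10 : 10 * n ≤ s.length := by nlinarith
  have hl100 : 100 ≤ s.length := by nlinarith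
  have hR : rnx s = 2048 * (10 * s.length + 103) ^ 2 * (s.length + 1) := rfl
  have hR1 : 1 ≤ rnx s := by
    rw [hR]
    exact Nat.succ_le_of_lt (by positivity)
  have hr : 10 * s.length + 8 ≤ wlx s := by
    have h1 : 2 * s.length + 3 * qs s ≤ wlx s := Nat.le_mul_of_pos_left _ hR1
    have h2 : 2 * s.length + 3 * qs s = 32 * s.length + 300 := by
      rw [show qs s = 10 * s.length + 100 from rfl]
      ring
    omega
  have hRl : 120 * rnx s ≤ 2 ^ s.length := by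
    rw [hR]
    exact rn_small _ hl100
  have hw1 : (1 : ℝ) ≤ w := by exact_mod_cast hw
  have hA1 : 1 ≤ (128 * (w : ℝ)) ^ D := one_le_pow₀ (by linarith)
  have hU0 : 0 ≤ ((S : ℝ) + 1) ^ D / 2 ^ w := by positivity
  have key := nmx_core n s.length (qs s) (rnx s) (wlx s) w ((128 * (w : ℝ)) ^ D)
    (((S : ℝ) + 1) ^ D / 2 ^ w) (dvx s) h10 rfl hR1 hRl hr hw hA1 hU0 rfl (by
      rw [← pow_add, ← mul_div_assoc, ← two_mul]
      exact hyp)
  rw [erx]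
  push_cast
  exact key

end Pool.Agent.H51.OX
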